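import Mathlib
import Pool.Agent.N781.F.Fix
import Pool.Agent.N781.F.Pat
import Pool.Agent.N675.M.Aper
import Pool.Agent.N424.M.MUL
import Pool.Agent.Results.MP_4a7640_nt.UniformGap

/-! Project F: Furstenberg systems of aperiodic multiplicative functions with values `1` and `-1`. -/

set_option autoImplicit false

namespace Pool.Agent.N781.F

open MeasureTheory Filter Topology Finset
open Pool.Agent.Results.MP_4a7640_nt.UniformGap (Val X shift seq IsFurstenbergSystem val_le seq_nat)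

/-- the function with the value `1` at `0` -/
noncomputable def fr (f : ℕ → Val) (n : ℕ) : ℝ := if n = 0 then 1 else (f n : ℝ)

lemma val_pm (z : Val) (hz : (z : ℝ) ≠ 0) : (z : ℝ) = 1 ∨ (z : ℝ) = -1 := by
  have h := z.2
  simp only [Set.mem_insert_iff, Set.mem_singleton_iff] at h
  rcases h with h | h | h
  · exact Or.inr h
  · exact absurd h hz
  · exact Or.inl h

lemma fr_pm {f : ℕ → Val} (hf : Pool.Agent.Results.MP_4a7640_nt.UniformGap.IsMult f) (n : ℕ) :
    fr f n = 1 ∨ fr f n = -1 := by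
  unfold fr
  split_ifs with h
  · exact Or.inl rfl
  · exact val_pm _ (hf.1 n (Nat.pos_of_ne_zero h))

lemma fr_one {f : ℕ → Val} (hf : Pool.Agent.Results.MP_4a7640_nt.UniformGap.IsMult f) : fr f 1 = 1 := by
  have h1 := hf.2 1 1 le_rfl le_rfl (by norm_num)
  have h2 := hf.1 1 le_rfl
  rw [mul_one] at h1
  unfold fr
  rw [if_neg one_ne_zero]
  have : ((f 1 : ℝ)) * ((f 1 : ℝ) - 1) = 0 := by linarith
  rcases mul_eq_zero.1 this with h | h
  · exact absurd h h2
  · linarith

lemma fr_mul {f : ℕ → Val} (hf : Pool.Agent.Results.MP_4a7640_nt.UniformGap.IsMult f) (m n : ℕ)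
    (hmn : m.Coprime n) : fr f (m * n) = fr f m * fr f n := by
  rcases Nat.eq_zero_or_pos m with hm | hm
  · subst hm
    rw [Nat.coprime_zero_left] at hmn
    subst hmn
    rw [fr_one hf]
    simp
  rcases Nat.eq_zero_or_pos n with hn | hn
  · subst hn
    rw [Nat.coprime_zero_right] at hmn
    subst hmn
    rw [fr_one hf]
    simp
  · unfold fr
    rw [if_neg (Nat.mul_pos hm hn).ne', if_neg hm.ne', if_neg hn.ne']
    exact hf.2 m n hm hn hmn

lemma fr_aper {f : ℕ → Val} (ha : Pool.Agent.Results.MP_4a7640_nt.UniformGap.Aperiodic f) :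
    Pool.Agent.N675.M.Aper (fr f) := by
  intro q χ hq hs
  apply ha q hq χ
  have h2 := (Function.Injective.summable_iff (g := fun p : Nat.Primes => (p : ℕ))
    (f := fun p : ℕ => if p.Prime then
    (1 - (((f p : ℝ) : ℂ) * (starRingEnd ℂ) (χ (p : ZMod q))).re) / (p : ℝ) else 0)
    Subtype.val_injective (fun p hp => by
      rw [if_neg]
      intro hp'
      exact hp ⟨⟨p, hp'⟩, rfl⟩)).1
  apply h2
  refine hs.congr fun p => ?_
  simp only [Function.comp_apply]
  rw [if_pos p.2]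
  unfold fr
  rw [if_neg p.2.pos.ne']

open Pool.Agent.N675 Pool.Agent.N675.M Pool.Agent.N781.A in
/-- cancellation along almost all dilates -/
lemma dil {f : ℕ → Val} (hf : Pool.Agent.Results.MP_4a7640_nt.UniformGap.IsMult f)
    (ha : Pool.Agent.Results.MP_4a7640_nt.UniformGap.Aperiodic f) (k : ℕ) (b : Fin k → ℤ)
    (hg : Odd k ∨ (k = 2 ∧ Function.Injective b)) (ε : ℝ) (hε : 0 < ε) :
    ∃ K : ℕ, ∀ D N : ℕ, K ≤ D → D ≤ N →
      ∑ d ∈ Icc (1 : ℤ) D, ‖cs (fun _ : Fin k => (1 : ℤ)) b (fun _ n => ((fr f n : ℝ) : ℂ)) N d‖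
        ≤ ε * (D * N) := by
  classical
  have hSG : SG (fun m => fr f m.natAbs) :=
    aper_sg Pool.Agent.N424.M.mul (fr f) (fr_pm hf) (fr_mul hf) (fr_aper ha)
  set L : Fin k → Unit → ℤ := fun i _ => b i with hL
  have hcls : ∀ i₀, cls (fun _ : Fin k => (1 : ℤ)) L (fun _ => false) i₀ = univ := by
    intro i₀
    ext i
    rw [mem_cls]
    simp
  have hgood : GoodS (fun _ : Fin k => (1 : ℤ)) L (fun _ => false) := by
    rcases hg with hodd | ⟨h2, hinj⟩
    · have hk : 0 < k := hodd.pos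
      refine ⟨⟨0, hk⟩, Or.inl ?_⟩
      rw [hcls]
      simpa using hodd
    · subst h2
      refine ⟨0, Or.inr ⟨0, ?_, -(b 1), fun _ => 1, ?_, ?_⟩⟩
      · rw [hcls]; exact mem_univ _
      · unfold LL
        simp only [hL, univ_unique, sum_const, card_singleton, one_smul, mul_one, one_mul]
        intro h
        have h3 : b 0 = b 1 := by linarith
        exact absurd (hinj h3) (by decide)
      · intro i _ hi
        have h3 : i = 1 := by
          fin_cases i
          · exact absurd rfl hi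
          · rfl
        subst h3
        unfold LL
        simp only [hL, univ_unique, sum_const, card_singleton, one_smul, mul_one, one_mul]
        ring
  obtain ⟨K, hK⟩ := sg_sum _ hSG (fun _ : Fin k => (1 : ℤ)) L (fun _ => false) (fun _ => one_ne_zero)
    hgood 1 ε hε
  refine ⟨K, fun D N hD hDN => ?_⟩
  have h := hK (fun _ => D) N (fun _ => hD) (by omega) (fun _ => by omega) (fun _ h => absurd h (by simp))
  have e1 : ∑ y ∈ Pool.Agent.N675.Box (fun _ : Unit => D), |∑ n ∈ Icc (1 : ℤ) N, ∏ i, (fun m : ℤ => fr f m.natAbs)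
      ((fun _ : Fin k => (1 : ℤ)) i * n + LL L i y)| = ∑ d ∈ Icc (1 : ℤ) D,
      ‖cs (fun _ : Fin k => (1 : ℤ)) b (fun _ n => ((fr f n : ℝ) : ℂ)) N d‖ := by
    apply Finset.sum_bij (fun (y : Unit → ℤ) _ => y ())
    · intro y hy
      rw [mem_Box] at hy
      rw [mem_Icc]
      exact hy ()
    · intro y _ y' _ hyy
      funext u
      exact hyy
    · intro d hd
      rw [mem_Icc] at hd
      exact ⟨fun _ => d, mem_Box.2 fun _ => hd, rfl⟩
    · intro y _
      unfold cs
      have e2 : ∑ n ∈ Icc (1 : ℤ) N, ∏ i : Fin k, ((fr f ((1 : ℤ) * n + b i * y ()).natAbs : ℝ) : ℂ) =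
          ((∑ n ∈ Icc (1 : ℤ) N, ∏ i : Fin k, fr f ((1 : ℤ) * n + b i * y ()).natAbs : ℝ) : ℂ) := by
        push_cast
        rfl
      rw [e2, Complex.norm_real, Real.norm_eq_abs]
      congr 1
      apply sum_congr rfl
      intro n _
      apply prod_congr rfl
      intro i _
      simp only [LL, hL, univ_unique, sum_singleton]
  rw [e1] at h
  refine h.trans (le_of_eq ?_)
  simp only [univ_unique, prod_singleton]
  ring

/-- the logarithmic averages -/
lemma log_cor {f : ℕ → Val} (hf : Pool.Agent.Results.MP_4a7640_nt.UniformGap.IsMult f)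
    (ha : Pool.Agent.Results.MP_4a7640_nt.UniformGap.Aperiodic f) (k : ℕ) (h : Fin k → ℤ)
    (hg : Odd k ∨ (k = 2 ∧ Function.Injective h)) :
    Tendsto (fun N : ℕ => (1 / Real.log (N : ℝ)) * ∑ n ∈ Icc 1 N, (1 / (n : ℝ)) *
      ∏ i, ((shift (n : ℤ) (seq f) (h i) : Val) : ℝ)) atTop (𝓝 0) := by
  have hk : 0 < k := by
    rcases hg with h1 | ⟨h1, _⟩
    · exact h1.pos
    · omega
  have hfm : ∀ i : Fin k, Pool.Agent.N781.FV.IsMult ((fun _ n => ((fr f n : ℝ) : ℂ)) i) := by
    intro i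
    refine ⟨fun n => ?_, fun m n hmn => ?_⟩
    · rcases fr_pm hf n with h | h <;> simp [h]
    · simp only
      rw [fr_mul hf m n hmn]
      push_cast
      rfl
  have h1 := fixed_log k hk (fun _ => 1) h (fun _ => le_rfl) (fun _ n => ((fr f n : ℝ) : ℂ)) hfm
    (fun ε hε => by
      obtain ⟨K, hK⟩ := dil hf ha k h hg ε hε
      refine ⟨K, fun D N hD hDN => ?_⟩
      simpa using hK D N hD hDN)
  set H : ℕ := ∑ i, (h i).natAbs with hH
  refine log_change _ _ (fun n => ?_) (fun n => ?_) H (fun n hn => ?_) h1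
  · rw [abs_prod]
    exact prod_le_one (fun _ _ => abs_nonneg _) (fun _ _ => val_le _)
  · rw [norm_prod]
    exact prod_le_one (fun _ _ => norm_nonneg _) (fun i _ => (hfm i).1 _)
  · rw [Complex.ofReal_prod]
    apply prod_congr rfl
    intro i _
    congr 1
    have hi : (h i).natAbs ≤ H := single_le_sum (f := fun i => (h i).natAbs) (fun _ _ => Nat.zero_le _) (mem_univ i)
    have hpos : 1 ≤ h i + (n : ℤ) := by omega
    have e1 : h i + (n : ℤ) = (((h i + (n : ℤ)).toNat : ℕ) : ℤ) := by omega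
    show ((seq f (h i + (n : ℤ)) : Val) : ℝ) = _
    rw [e1, seq_nat f _ (by omega)]
    unfold fr
    have e2 : (((1 : ℕ) : ℤ) * (n : ℤ) + h i).natAbs = (h i + (n : ℤ)).toNat := by omega
    rw [e2, if_neg (by omega)]

lemma y_meas {k : ℕ} (h : Fin k → ℤ) (i : Fin k) : Measurable (fun x : X => (x (h i) : ℝ)) := by
  have hc : Continuous (fun x : X => (x (h i) : ℝ)) := by fun_prop
  exact hc.measurable

section

variable {f : ℕ → Val} (hf : Pool.Agent.Results.MP_4a7640_nt.UniformGap.IsMult f)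
  (ha : Pool.Agent.Results.MP_4a7640_nt.UniformGap.Aperiodic f) {μ : Measure X}
  (hμ : IsFurstenbergSystem f μ)

include hf ha hμ

/-- correlations of odd order and of order two vanish -/
lemma int_zero (k : ℕ) (h : Fin k → ℤ) (hg : Odd k ∨ (k = 2 ∧ Function.Injective h)) :
    ∫ x, ∏ i, (x (h i) : ℝ) ∂μ = 0 := by
  obtain ⟨hprob, N, hN, hlim⟩ := hμ
  have h1 := (log_cor hf ha k h hg).comp hN
  have h2 := hlim (fun x => ∏ i, (x (h i) : ℝ)) (by fun_prop)
  exact tendsto_nhds_unique h2 h1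

omit ha in
/-- the coordinates are almost surely signs -/
lemma ae_pm (m : ℤ) : ∀ᵐ x ∂μ, (x m : ℝ) = 1 ∨ (x m : ℝ) = -1 := by
  obtain ⟨hprob, N, hN, hlim⟩ := hμ
  have hb : ∀ z : Val, (z : ℝ) ^ 2 ≤ 1 := fun z => by
    rw [← sq_abs]
    exact pow_le_one₀ (abs_nonneg _) (val_le z)
  have h1 : Tendsto (fun N : ℕ => (1 / Real.log (N : ℝ)) * ∑ n ∈ Icc 1 N, (1 / (n : ℝ)) *
      (1 - ((shift (n : ℤ) (seq f) m : Val) : ℝ) ^ 2)) atTop (𝓝 0) := by
    refine log_change _ (fun _ => 0) (fun n => ?_) (fun n => by simp) m.natAbs (fun n hn => ?_) (by simp)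
    · have h3 := hb (shift (n : ℤ) (seq f) m)
      have h4 := sq_nonneg ((shift (n : ℤ) (seq f) m : Val) : ℝ)
      rw [abs_le]
      constructor <;> linarith
    · have e1 : m + (n : ℤ) = (((m + (n : ℤ)).toNat : ℕ) : ℤ) := by omega
      have e3 : ((shift (n : ℤ) (seq f) m : Val) : ℝ) ^ 2 = 1 := by
        show ((seq f (m + (n : ℤ)) : Val) : ℝ) ^ 2 = 1
        rw [e1, seq_nat f _ (by omega)]
        rcases val_pm _ (hf.1 (m + (n : ℤ)).toNat (by omega)) with h | h <;> rw [h] <;> norm_num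
      rw [e3]
      simp
  have h2 := hlim (fun x => 1 - (x m : ℝ) ^ 2) (by fun_prop)
  have h3 := tendsto_nhds_unique h2 (h1.comp hN)
  have hint : Integrable (fun x : X => 1 - (x m : ℝ) ^ 2) μ := by
    have hc : Continuous (fun x : X => 1 - (x m : ℝ) ^ 2) := by fun_prop
    refine Integrable.of_bound hc.measurable.aestronglyMeasurable 1 (Eventually.of_forall fun x => ?_)
    have h4 := hb (x m)
    have h5 := sq_nonneg (x m : ℝ)
    rw [Real.norm_eq_abs, abs_le]
    constructor <;> linarith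
  have h4 := (integral_eq_zero_iff_of_nonneg (fun x : X => sub_nonneg.2 (hb (x m))) hint).1 h3
  filter_upwards [h4] with x hx
  have hx' : 1 - (x m : ℝ) ^ 2 = 0 := hx
  have : ((x m : ℝ) - 1) * ((x m : ℝ) + 1) = 0 := by linarith
  rcases mul_eq_zero.1 this with h | h
  · left; linarith
  · right; linarith

omit hf ha in
/-- stationarity -/
lemma int_shift {k : ℕ} (h : Fin k → ℤ) (t : ℕ) :
    ∫ x, ∏ i, (x (h i + t) : ℝ) ∂μ = ∫ x, ∏ i, (x (h i) : ℝ) ∂μ := by
  obtain ⟨hprob, N, hN, hlim⟩ := hμ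
  set u : ℕ → ℝ := fun n => ∏ i, ((shift (n : ℤ) (seq f) (h i) : Val) : ℝ) with hu
  have hu1 : ∀ n, |u n| ≤ 1 := by
    intro n
    simp only [hu]
    rw [abs_prod]
    exact prod_le_one (fun _ _ => abs_nonneg _) (fun _ _ => val_le _)
  have h1 := (log_shift u hu1 t).comp hN
  have h2 := hlim (fun x => ∏ i, (x (h i) : ℝ)) (by fun_prop)
  have h3 := hlim (fun x => ∏ i, (x (h i + t) : ℝ)) (by fun_prop)
  have h4 : Tendsto (fun j => (1 / Real.log (N j : ℝ)) * ∑ n ∈ Icc 1 (N j), (1 / (n : ℝ)) * u (n + t))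
      atTop (𝓝 (∫ x, ∏ i, (x (h i + t) : ℝ) ∂μ)) := by
    refine h3.congr fun j => ?_
    congr 1
    apply sum_congr rfl
    intro n _
    congr 1
    simp only [hu]
    apply prod_congr rfl
    intro i _
    unfold shift
    push_cast
    have e : h i + (t : ℤ) + (n : ℤ) = h i + ((n : ℤ) + (t : ℤ)) := by ring
    rw [e]
  have h5 := tendsto_nhds_unique (h4.sub h2) h1
  linarith

omit hf ha hμ in
/-- the hypotheses of the pattern theorems -/
lemma cor_sub {k : ℕ} (h : Fin k → ℤ) (S : Finset (Fin k)) :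
    ∃ h' : Fin S.card → ℤ, (Function.Injective h → Function.Injective h') ∧
      cor μ (fun i x => (x (h i) : ℝ)) S = ∫ x, ∏ i, (x (h' i) : ℝ) ∂μ := by
  refine ⟨fun i => h (S.equivFin.symm i), fun hh i j hij => ?_, ?_⟩
  · have h1 := hh hij
    exact S.equivFin.symm.injective (Subtype.ext h1)
  · unfold cor
    congr 1
    funext x
    rw [← Finset.prod_coe_sort S]
    exact (Equiv.prod_comp S.equivFin.symm (fun i : S => ((x (h i) : Val) : ℝ))).symm

lemma cor_odd {k : ℕ} (h : Fin k → ℤ) (S : Finset (Fin k)) (hS : Odd S.card) :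
    cor μ (fun i x => (x (h i) : ℝ)) S = 0 := by
  obtain ⟨h', -, he⟩ := cor_sub (μ := μ) h S
  rw [he]
  exact int_zero hf ha hμ _ h' (Or.inl hS)

lemma cor_two {k : ℕ} (h : Fin k → ℤ) (hh : Function.Injective h) (S : Finset (Fin k)) (hS : S.card = 2) :
    cor μ (fun i x => (x (h i) : ℝ)) S = 0 := by
  obtain ⟨h', h1, he⟩ := cor_sub (μ := μ) h S
  rw [he]
  exact int_zero hf ha hμ _ h' (Or.inr ⟨hS, h1 hh⟩)

/-- correlations of at most `k + 1` signs are bounded away from `1` -/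
lemma int_gap (c : ℕ → ℝ) (hc : ∀ f : ℕ → Val, Pool.Agent.Results.MP_4a7640_nt.UniformGap.IsMult f →
      Pool.Agent.Results.MP_4a7640_nt.UniformGap.Aperiodic f → ∀ μ : Measure X, IsFurstenbergSystem f μ →
      ∀ (k : ℕ) (h : Fin (k + 1) → ℤ), Function.Injective h →
      |∫ x, ∏ i, (x (h i) : ℝ) ∂μ| ≤ 1 - c k) {k : ℕ} (h : Fin k → ℤ) (hh : Function.Injective h)
    (S : Finset (Fin k)) (r : ℕ) (hS : S.card = r + 1) :
    |cor μ (fun i x => (x (h i) : ℝ)) S| ≤ 1 - c r := by
  obtain ⟨h', h1, he⟩ := cor_sub (μ := μ) h S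
  rw [he]
  revert h'
  rw [hS]
  intro h' h1 _
  exact hc f hf ha μ hμ r h' (h1 hh)

omit hf ha in
/-- four term progressions -/
lemma ap_half (hf : Pool.Agent.Results.MP_4a7640_nt.UniformGap.IsMult f)
    (ha : Pool.Agent.Results.MP_4a7640_nt.UniformGap.Aperiodic f) (m : ℤ) (d : ℕ) (hd : 1 ≤ d) :
    |∫ x, ∏ i : Fin 4, (x (m + (i : ℕ) * d) : ℝ) ∂μ| ≤ 1 / 2 := by
  have hprob := hμ.1
  set h : Fin 5 → ℤ := fun i => m + (i : ℕ) * d with hh
  have hinj : Function.Injective h := by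
    intro i j hij
    simp only [hh] at hij
    have h1 : ((i : ℕ) : ℤ) * d = ((j : ℕ) : ℤ) * d := by linarith
    have h2 : ((i : ℕ) : ℤ) = ((j : ℕ) : ℤ) := mul_right_cancel₀ (by exact_mod_cast (by omega : d ≠ 0)) h1
    exact Fin.ext (by exact_mod_cast h2)
  set y : Fin 5 → X → ℝ := fun i x => (x (h i) : ℝ) with hy
  have h5 := half (fun j => cor μ y (univ.erase j)) (fun s => by
    have h6 := five μ y (fun i => y_meas h i) (fun i => ae_pm hf hμ (h i)) (fun S hS => cor_odd hf ha hμ h S hS)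
      (fun S hS => cor_two hf ha hμ h hinj S hS) s
    have h7 : 0 ≤ μ.real {ω | ∀ i, y i ω = sg (s i)} := measureReal_nonneg
    rw [h6] at h7
    linarith)
  have e4 : cor μ y (univ.erase 4) = ∫ x, ∏ i : Fin 4, (x (m + (i : ℕ) * d) : ℝ) ∂μ := by
    unfold cor
    refine integral_congr_ae (Eventually.of_forall fun x => ?_)
    have : (univ : Finset (Fin 5)).erase 4 = {0, 1, 2, 3} := by decide
    simp only
    rw [this, Fin.prod_univ_four]
    simp only [hy, hh]
    rw [prod_insert (by decide), prod_insert (by decide), prod_insert (by decide), prod_singleton]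
    simp only [mul_assoc]
    rfl
  have e0 : cor μ y (univ.erase 0) = ∫ x, ∏ i : Fin 4, (x (m + (i : ℕ) * d) : ℝ) ∂μ := by
    rw [← int_shift hμ (fun i : Fin 4 => m + (i : ℕ) * d) d]
    unfold cor
    congr 1
    funext x
    have : (univ : Finset (Fin 5)).erase 0 = {1, 2, 3, 4} := by decide
    rw [this, Fin.prod_univ_four]
    simp only [hy, hh]
    rw [prod_insert (by decide), prod_insert (by decide), prod_insert (by decide), prod_singleton]
    have g : ∀ i : ℕ, m + ((i : ℕ) : ℤ) * d + d = m + ((i + 1 : ℕ) : ℤ) * d := by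
      intro i
      push_cast
      ring
    simp only [g, mul_assoc]
    rfl
  rw [e0, e4, ← two_mul, abs_mul] at h5
  have : |(2 : ℝ)| = 2 := by norm_num
  rw [this] at h5
  linarith

end

end Pool.Agent.N781.F
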